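import Pool.Agent.H562.BP.Stm

/-!
# Project BP (helper562): no asymptotic expansion when a logarithm appears below a polynomial (helper268)
-/

set_option autoImplicit false

open Finset Filter Topology

namespace Pool.Agent.H268.BP562

/-- from an asymptotic expansion to finite sums -/
theorem finite_of_expansion {h : ℕ} {F : ℕ → ℂ} (hF : H524R3.HasExpansion h (fun k => F (k + h))) (s : ℝ) :
    ∃ (m : ℕ) (T : Finset (Fin (m + 1) × ℕ)) (β z : Fin (m + 1) × ℕ → ℂ) (e : Fin (m + 1) × ℕ → ℝ),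
      (∀ i, ‖z i‖ = 1) ∧ ∃ C : ℝ, 0 ≤ C ∧ ∀ᶠ n : ℕ in atTop,
        ‖F n - ∑ i ∈ T, β i * (((n : ℝ) ^ e i : ℝ) : ℂ) * z i ^ n‖ ≤ C * (n : ℝ) ^ s := by
  obtain ⟨m, c, d, b, a, hexp⟩ := hF
  set D : ℝ := univ.sup' univ_nonempty d with hD
  -- choose L
  obtain ⟨L, hL⟩ : ∃ L : ℕ, D - ((L : ℝ) + 1) / 2 ≤ s := by
    obtain ⟨L, hL⟩ := exists_nat_ge (2 * (D - s))
    exact ⟨L, by linarith⟩
  obtain ⟨C₁, k₀, hC₁⟩ := hexp L
  let ι := Fin (m + 1) × ℕ
  let β : ι → ℂ := fun i => b i.1 * (if i.2 = 0 then 1 else a i.1 i.2)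
  let z : ι → ℂ := fun i => Complex.exp (2 * Real.pi * Complex.I * (c i.1 : ℂ))
  let e : ι → ℝ := fun i => d i.1 - (i.2 : ℝ) / 2
  have hz : ∀ i, ‖z i‖ = 1 := by
    intro i
    show ‖Complex.exp (2 * Real.pi * Complex.I * (c i.1 : ℂ))‖ = 1
    rw [show 2 * (Real.pi : ℂ) * Complex.I * (c i.1 : ℂ) = ((2 * Real.pi * c i.1 : ℝ) : ℂ) * Complex.I by
      push_cast; ring]
    exact Complex.norm_exp_ofReal_mul_I _
  refine ⟨m, (univ : Finset (Fin (m + 1))) ×ˢ range (L + 1), β, z, e, hz, |C₁|, abs_nonneg _, ?_⟩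
  filter_upwards [eventually_ge_atTop (k₀ + h + 1)] with n hn
  have h1 := hC₁ (n - h) (by omega)
  have hnh : n - h + h = n := by omega
  simp only [hnh] at h1
  have hn' : (1 : ℝ) ≤ n := by
    have : 1 ≤ n := by omega
    exact_mod_cast this
  have hsum : ∑ i ∈ (univ : Finset (Fin (m + 1))) ×ˢ range (L + 1),
        β i * (((n : ℝ) ^ e i : ℝ) : ℂ) * z i ^ n =
      ∑ j, Complex.exp (2 * Real.pi * Complex.I * (n * (c j : ℂ))) *
        (((n : ℝ) ^ d j : ℝ) : ℂ) * b j *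
          (1 + ∑ l ∈ Icc 1 L, a j l * (((n : ℝ) ^ (-(l : ℝ) / 2) : ℝ) : ℂ)) := by
    rw [Finset.sum_product]
    refine Finset.sum_congr rfl fun j _ => ?_
    have hzn : Complex.exp (2 * Real.pi * Complex.I * (n * (c j : ℂ))) =
        Complex.exp (2 * Real.pi * Complex.I * (c j : ℂ)) ^ n := by
      rw [← Complex.exp_nat_mul]; congr 1; ring
    have hr1 : range (L + 1) = insert 0 (Icc 1 L) := by
      ext x; simp only [mem_range, mem_insert, mem_Icc]; omega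
    rw [hr1, Finset.sum_insert (by simp), hzn, mul_add, mul_one, Finset.mul_sum]
    congr 1
    · simp only [β, e, z]
      simp
      ring
    · refine Finset.sum_congr rfl fun l hl => ?_
      have hl0 : l ≠ 0 := by rw [mem_Icc] at hl; omega
      simp only [β, e, z, if_neg hl0]
      have hp : (n : ℝ) ^ (d j - (l : ℝ) / 2) = (n : ℝ) ^ d j * (n : ℝ) ^ (-(l : ℝ) / 2) := by
        rw [← Real.rpow_add (by linarith)]; congr 1; ring
      rw [hp]
      push_cast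
      ring
  rw [hsum]
  refine h1.trans ?_
  calc C₁ * (n : ℝ) ^ (D - ((L : ℝ) + 1) / 2) ≤ |C₁| * (n : ℝ) ^ (D - ((L : ℝ) + 1) / 2) :=
        mul_le_mul_of_nonneg_right (le_abs_self _) (Real.rpow_nonneg (by linarith) _)
    _ ≤ |C₁| * (n : ℝ) ^ s :=
        mul_le_mul_of_nonneg_left (Real.rpow_le_rpow_of_exponent_le hn' hL) (abs_nonneg _)

theorem log_top : Tendsto (fun n : ℕ => Real.log n) atTop atTop :=
  Real.tendsto_log_atTop.comp tendsto_natCast_atTop_atTop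

/-- `K / log n → 0` controls the remainder -/
theorem rem_lim {E : ℕ → ℝ} {K : ℝ} {q : ℕ} (hE : ∀ n : ℕ, 1 ≤ n → |E n| ≤ K * (n : ℝ) ^ q) :
    Tendsto (fun n : ℕ => E n / ((n : ℝ) ^ q * Real.log n)) atTop (𝓝 0) := by
  have h1 : Tendsto (fun n : ℕ => K / Real.log n) atTop (𝓝 0) := tendsto_const_nhds.div_atTop log_top
  refine squeeze_zero_norm' ?_ h1
  filter_upwards [eventually_ge_atTop 1, log_top.eventually_gt_atTop 0] with n hn hl
  have hn' : (0 : ℝ) < n := by exact_mod_cast hn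
  rw [Real.norm_eq_abs, abs_div, abs_of_pos (by positivity : (0 : ℝ) < (n : ℝ) ^ q * Real.log n),
    div_le_div_iff₀ (by positivity) hl]
  calc |E n| * Real.log n ≤ K * (n : ℝ) ^ q * Real.log n := mul_le_mul_of_nonneg_right (hE n hn) hl.le
    _ = K * ((n : ℝ) ^ q * Real.log n) := by ring

theorem rem_lim' {E : ℕ → ℝ} {K : ℝ} {q p : ℕ} (hqp : q < p) (hE : ∀ n : ℕ, 1 ≤ n → |E n| ≤ K * (n : ℝ) ^ q) :
    Tendsto (fun n : ℕ => E n / (n : ℝ) ^ p) atTop (𝓝 0) := by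
  have h1 : Tendsto (fun n : ℕ => K * ((n : ℝ) ^ (q : ℝ) / (n : ℝ) ^ (p : ℝ))) atTop (𝓝 0) := by
    have h2 := (H524R3.rpow_little_o q p (by exact_mod_cast hqp)).const_mul K
    rwa [mul_zero] at h2
  refine squeeze_zero_norm' ?_ h1
  filter_upwards [eventually_ge_atTop 1] with n hn
  have hn' : (0 : ℝ) < n := by exact_mod_cast hn
  rw [Real.norm_eq_abs, abs_div, abs_of_pos (by positivity : (0 : ℝ) < (n : ℝ) ^ p), Real.rpow_natCast,
    Real.rpow_natCast, ← mul_div_assoc]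
  exact div_le_div_of_nonneg_right (hE n hn) (by positivity)

theorem log_lim' {q p : ℕ} (hqp : q < p) :
    Tendsto (fun n : ℕ => (n : ℝ) ^ q * Real.log n / (n : ℝ) ^ p) atTop (𝓝 0) := by
  have h2 := H524R3.log_bound_little_o q p (by exact_mod_cast hqp)
  refine squeeze_zero_norm' ?_ h2
  filter_upwards [eventually_ge_atTop 1] with n hn
  have hn' : (0 : ℝ) < n := by exact_mod_cast hn
  have hl : 0 ≤ Real.log n := Real.log_natCast_nonneg n
  rw [Real.norm_eq_abs, abs_of_nonneg (by positivity), Real.rpow_natCast, Real.rpow_natCast]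
  refine div_le_div_of_nonneg_right (mul_le_mul_of_nonneg_left (by linarith) (by positivity)) (by positivity)

theorem poly_bound (P : Polynomial ℝ) {M : ℕ} (h : P.natDegree ≤ M) : ∃ C : ℝ, ∀ n : ℕ, 1 ≤ n →
    |P.eval (n : ℝ)| ≤ C * (n : ℝ) ^ M := by
  refine ⟨∑ i ∈ range (P.natDegree + 1), |P.coeff i|, fun n hn => ?_⟩
  have hn' : (1 : ℝ) ≤ n := by exact_mod_cast hn
  rw [Polynomial.eval_eq_sum_range, Finset.sum_mul]
  refine (Finset.abs_sum_le_sum_abs _ _).trans (Finset.sum_le_sum fun i hi => ?_)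
  rw [abs_mul, abs_of_nonneg (by positivity : (0 : ℝ) ≤ (n : ℝ) ^ i)]
  rw [mem_range] at hi
  exact mul_le_mul_of_nonneg_left (pow_le_pow_right₀ hn' (by omega)) (abs_nonneg _)

theorem lead_lim (P : Polynomial ℝ) (hP : P ≠ 0) :
    Tendsto (fun n : ℕ => P.eval (n : ℝ) / (n : ℝ) ^ P.natDegree) atTop (𝓝 P.leadingCoeff) := by
  have h1 := Polynomial.div_tendsto_atTop_leadingCoeff_div_of_degree_eq P (Polynomial.X ^ P.natDegree : Polynomial ℝ)
    (by rw [Polynomial.degree_X_pow, Polynomial.degree_eq_natDegree hP])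
  have h2 := h1.comp tendsto_natCast_atTop_atTop
  rw [Polynomial.leadingCoeff_X_pow, div_one] at h2
  refine h2.congr fun n => ?_
  simp only [Function.comp, Polynomial.eval_pow, Polynomial.eval_X]

/-- a sequence asymptotic to a nonzero multiple of `n ^ q * log n` -/
theorem size {F : ℕ → ℂ} {q : ℕ} {g : ℕ → ℝ} {c : ℝ} (hc : c ≠ 0) (hFg : ∀ n, ‖F n‖ = |g n|)
    (hg : Tendsto (fun n : ℕ => g n / ((n : ℝ) ^ q * Real.log n)) atTop (𝓝 c)) :
    (∀ᶠ n : ℕ in atTop, ‖F n‖ ≤ (|c| + 1) * ((n : ℝ) ^ (q : ℝ) * (1 + Real.log n) ^ 1)) ∧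
      Tendsto (fun n : ℕ => ‖F n‖ / (n : ℝ) ^ (q : ℝ)) atTop atTop := by
  have habs := hg.abs
  constructor
  · filter_upwards [habs.eventually_lt_const (show |c| < |c| + 1 by linarith), eventually_ge_atTop 1,
      log_top.eventually_gt_atTop 0] with n h1 h2 h3
    have hn' : (0 : ℝ) < n := by exact_mod_cast h2
    have hp : (0 : ℝ) < (n : ℝ) ^ q * Real.log n := by positivity
    rw [abs_div, abs_of_pos hp, div_lt_iff₀ hp] at h1
    rw [hFg, Real.rpow_natCast, pow_one]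
    refine h1.le.trans (mul_le_mul_of_nonneg_left ?_ (by positivity))
    exact mul_le_mul_of_nonneg_left (by linarith) (by positivity)
  · have h1 : Tendsto (fun n : ℕ => |c| / 2 * Real.log n) atTop atTop :=
      log_top.const_mul_atTop (by positivity)
    refine tendsto_atTop_mono' _ ?_ h1
    have hc' : |c| / 2 < |c| := by
      have : 0 < |c| := abs_pos.2 hc
      linarith
    filter_upwards [habs.eventually_const_lt hc', eventually_ge_atTop 1,
      log_top.eventually_gt_atTop 0] with n h1 h2 h3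
    have hn' : (0 : ℝ) < n := by exact_mod_cast h2
    have hp : (0 : ℝ) < (n : ℝ) ^ q * Real.log n := by positivity
    rw [abs_div, abs_of_pos hp, lt_div_iff₀ hp] at h1
    rw [hFg, Real.rpow_natCast, le_div_iff₀ (by positivity)]
    nlinarith

/-- the square of a finite sum -/
theorem sq_sum {ι : Type*} (T : Finset ι) (β z : ι → ℂ) (e : ι → ℝ) {n : ℕ} (hn : 1 ≤ n) :
    ((‖∑ i ∈ T, β i * (((n : ℝ) ^ e i : ℝ) : ℂ) * z i ^ n‖ ^ 2 : ℝ) : ℂ) =
      ∑ p ∈ T ×ˢ T, (β p.1 * (starRingEnd ℂ) (β p.2)) * (((n : ℝ) ^ (e p.1 + e p.2) : ℝ) : ℂ) *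
        (z p.1 * (starRingEnd ℂ) (z p.2)) ^ n := by
  have hn' : (0 : ℝ) < n := by exact_mod_cast hn
  have h1 : ∀ w : ℂ, ((‖w‖ ^ 2 : ℝ) : ℂ) = w * (starRingEnd ℂ) w := by
    intro w
    rw [Complex.mul_conj, Complex.normSq_eq_norm_sq]
  rw [h1, map_sum, Finset.sum_mul_sum, Finset.sum_product]
  refine Finset.sum_congr rfl fun i _ => Finset.sum_congr rfl fun j _ => ?_
  rw [map_mul, map_mul, map_pow, Complex.conj_ofReal, Real.rpow_add hn']
  push_cast
  ring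

theorem eval_sum (R : Polynomial ℝ) (n : ℕ) :
    ∑ l ∈ range (R.natDegree + 1), (-(R.coeff l : ℂ)) * (((n : ℝ) ^ (l : ℝ) : ℝ) : ℂ) * (1 : ℂ) ^ n =
      -((R.eval (n : ℝ) : ℝ) : ℂ) := by
  rw [Polynomial.eval_eq_sum_range]
  push_cast
  rw [← Finset.sum_neg_distrib]
  refine Finset.sum_congr rfl fun l _ => ?_
  rw [one_pow, mul_one, Real.rpow_natCast]
  push_cast
  ring

theorem ne_holds : H562BP.S_NE := by
  intro κ M P c K Z hc hZ ω hω hexp
  obtain ⟨E, hE⟩ : ∃ E : ℕ → ℝ, ∀ n, E n = Z n - ((n : ℝ) / 2) ^ κ *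
    (P.eval (n : ℝ) + c * ((n : ℝ) ^ M * Real.log n)) := ⟨_, fun _ => rfl⟩
  have hEb : ∀ n : ℕ, 1 ≤ n → |E n| ≤ K * (n : ℝ) ^ (κ + M) := by
    intro n hn
    rw [hE, pow_add]
    exact hZ n hn
  have hZE : ∀ n : ℕ, Z n = ((n : ℝ) / 2) ^ κ * (P.eval (n : ℝ) + c * ((n : ℝ) ^ M * Real.log n)) + E n := by
    intro n
    rw [hE]
    ring
  let f : ℕ → ℂ := fun n => ω (n - 2) * ((Z n : ℝ) : ℂ)
  have hf : ∀ n, ‖f n‖ = |Z n| := by
    intro n
    show ‖ω (n - 2) * ((Z n : ℝ) : ℂ)‖ = |Z n|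
    rw [norm_mul, hω, one_mul, Complex.norm_real, Real.norm_eq_abs]
  have hexp' : H524R3.HasExpansion 2 (fun k => f (k + 2)) := hexp
  have h2κ : (2 : ℝ) ^ κ ≠ 0 := by positivity
  by_cases hdeg : P.natDegree ≤ M
  · -- the logarithm is the main term
    obtain ⟨C, hC⟩ := poly_bound P hdeg
    have h1 : Tendsto (fun n : ℕ => Z n / ((n : ℝ) ^ (κ + M) * Real.log n)) atTop (𝓝 (c / 2 ^ κ)) := by
      have h2 := (((rem_lim hC).add_const c).div_const ((2 : ℝ) ^ κ)).add (rem_lim hEb)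
      rw [zero_add, add_zero] at h2
      refine h2.congr' ?_
      filter_upwards [eventually_ge_atTop 1, log_top.eventually_gt_atTop 0] with n hn hl
      have hn' : (n : ℝ) ≠ 0 := by
        have : n ≠ 0 := by omega
        exact_mod_cast this
      rw [hZE n, div_pow, pow_add]
      field_simp
    obtain ⟨h3, h4⟩ := size (F := f) (g := Z) (div_ne_zero hc h2κ) hf h1
    exact W719AEC.not_hasExpansion 2 _ f _ 1 h3 h4 hexp'
  · -- the polynomial is the main term: squares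
    push Not at hdeg
    obtain ⟨D, hD⟩ : ∃ D : ℕ, D = P.natDegree := ⟨_, rfl⟩
    rw [← hD] at hdeg
    have hP0 : P ≠ 0 := by
      rintro rfl
      rw [Polynomial.natDegree_zero] at hD
      omega
    have hℓ : P.leadingCoeff ≠ 0 := Polynomial.leadingCoeff_ne_zero.2 hP0
    have hlead := lead_lim P hP0
    rw [← hD] at hlead
    obtain ⟨ℓ, hℓe⟩ : ∃ ℓ : ℝ, ℓ = P.leadingCoeff := ⟨_, rfl⟩
    rw [← hℓe] at hlead hℓ
    -- the main part
    have hm : Tendsto (fun n : ℕ => ((n : ℝ) / 2) ^ κ * P.eval (n : ℝ) / (n : ℝ) ^ (κ + D)) atTop (𝓝 (ℓ / 2 ^ κ)) := by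
      refine (hlead.div_const ((2 : ℝ) ^ κ)).congr' ?_
      filter_upwards [eventually_ge_atTop 1] with n hn
      have hn' : (n : ℝ) ≠ 0 := by
        have : n ≠ 0 := by omega
        exact_mod_cast this
      rw [div_pow, pow_add]
      field_simp
    have hw : Tendsto (fun n : ℕ => Z n / (n : ℝ) ^ (κ + D)) atTop (𝓝 (ℓ / 2 ^ κ)) := by
      have h2 := (hm.add ((log_lim' hdeg).const_mul (c / 2 ^ κ))).add
        (rem_lim' (show κ + M < κ + D by omega) hEb)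
      rw [mul_zero, add_zero, add_zero] at h2
      refine h2.congr' ?_
      filter_upwards [eventually_ge_atTop 1] with n hn
      have hn' : (n : ℝ) ≠ 0 := by
        have : n ≠ 0 := by omega
        exact_mod_cast this
      rw [hZE n, div_pow, pow_add]
      field_simp
    have hu : Tendsto (fun n : ℕ => (Z n - ((n : ℝ) / 2) ^ κ * P.eval (n : ℝ)) /
        ((n : ℝ) ^ (κ + M) * Real.log n)) atTop (𝓝 (c / 2 ^ κ)) := by
      have h2 := (rem_lim hEb).const_add (c / 2 ^ κ)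
      rw [add_zero] at h2
      refine h2.congr' ?_
      filter_upwards [eventually_ge_atTop 1, log_top.eventually_gt_atTop 0] with n hn hl
      have hn' : (n : ℝ) ≠ 0 := by
        have : n ≠ 0 := by omega
        exact_mod_cast this
      rw [hZE n, div_pow, pow_add]
      field_simp
      ring
    have hv := hw.add hm
    -- the difference of the squares
    let g : ℕ → ℝ := fun n => Z n ^ 2 - (((n : ℝ) / 2) ^ κ * P.eval (n : ℝ)) ^ 2
    have hg : Tendsto (fun n : ℕ => g n / ((n : ℝ) ^ (2 * κ + D + M) * Real.log n)) atTop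
        (𝓝 (c / 2 ^ κ * (ℓ / 2 ^ κ + ℓ / 2 ^ κ))) := by
      refine (hu.mul hv).congr' ?_
      filter_upwards [eventually_ge_atTop 1, log_top.eventually_gt_atTop 0] with n hn hl
      have hn' : (n : ℝ) ≠ 0 := by
        have : n ≠ 0 := by omega
        exact_mod_cast this
      have h3 : (n : ℝ) ^ (2 * κ + D + M) = (n : ℝ) ^ (κ + M) * (n : ℝ) ^ (κ + D) := by
        rw [← pow_add]
        congr 1
        omega
      rw [h3]
      show _ = (Z n ^ 2 - (((n : ℝ) / 2) ^ κ * P.eval (n : ℝ)) ^ 2) / _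
      field_simp
      ring
    have hne : c / 2 ^ κ * (ℓ / 2 ^ κ + ℓ / 2 ^ κ) ≠ 0 := by
      refine mul_ne_zero (div_ne_zero hc h2κ) ?_
      rw [← two_mul]
      exact mul_ne_zero two_ne_zero (div_ne_zero hℓ h2κ)
    obtain ⟨h3, h4⟩ := size (F := fun n => ((g n : ℝ) : ℂ)) (g := g) hne
      (fun n => by rw [Complex.norm_real, Real.norm_eq_abs]) hg
    -- the finite sums
    obtain ⟨m, T, β, z, e, hz, C₁, hC₁0, hC₁⟩ := finite_of_expansion hexp' ((κ + M : ℕ) : ℝ)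
    obtain ⟨C₂, hC₂⟩ : ∃ C₂ : ℝ, C₂ = |ℓ / 2 ^ κ| + 1 := ⟨_, rfl⟩
    have hC₂0 : 0 ≤ C₂ := by
      rw [hC₂]
      positivity
    have hZb : ∀ᶠ n : ℕ in atTop, |Z n| ≤ C₂ * (n : ℝ) ^ (κ + D) := by
      filter_upwards [hw.abs.eventually_lt_const (show |ℓ / 2 ^ κ| < C₂ by rw [hC₂]; linarith),
        eventually_ge_atTop 1] with n h5 h6
      have hn' : (0 : ℝ) < n := by exact_mod_cast h6
      have hp : (0 : ℝ) < (n : ℝ) ^ (κ + D) := by positivity
      rw [abs_div, abs_of_pos hp, div_lt_iff₀ hp] at h5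
      exact h5.le
    let R : Polynomial ℝ := ((Polynomial.C (1 / 2 : ℝ) * Polynomial.X) ^ κ * P) ^ 2
    have hR : ∀ n : ℕ, R.eval (n : ℝ) = (((n : ℝ) / 2) ^ κ * P.eval (n : ℝ)) ^ 2 := by
      intro n
      show (((Polynomial.C (1 / 2 : ℝ) * Polynomial.X) ^ κ * P) ^ 2).eval (n : ℝ) = _
      rw [Polynomial.eval_pow, Polynomial.eval_mul, Polynomial.eval_pow, Polynomial.eval_mul, Polynomial.eval_C,
        Polynomial.eval_X]
      congr 3
      ring
    let ι := Fin (m + 1) × ℕ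
    let β' : (ι × ι) ⊕ ℕ → ℂ := Sum.elim (fun p => β p.1 * (starRingEnd ℂ) (β p.2)) (fun l => -(R.coeff l : ℂ))
    let z' : (ι × ι) ⊕ ℕ → ℂ := Sum.elim (fun p => z p.1 * (starRingEnd ℂ) (z p.2)) (fun _ => 1)
    let e' : (ι × ι) ⊕ ℕ → ℝ := Sum.elim (fun p => e p.1 + e p.2) (fun l => (l : ℝ))
    have hz' : ∀ i, ‖z' i‖ = 1 := by
      rintro (p | l)
      · show ‖z p.1 * (starRingEnd ℂ) (z p.2)‖ = 1
        rw [norm_mul, RCLike.norm_conj, hz, hz, one_mul]
      · exact norm_one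
    have key := W719AEC.bounded_of_expansion ((2 * κ + D + M : ℕ) : ℝ) (fun n => ((g n : ℝ) : ℂ)) _ 1 h3 β' z' e' hz' _
      ((T ×ˢ T).disjSum (range (R.natDegree + 1))) le_rfl ⟨C₁ * (2 * C₂ + C₁), ?_⟩
    · obtain ⟨C'', hC''⟩ := key
      have h5 := h4.eventually (eventually_gt_atTop C'')
      obtain ⟨n, hn1, hn2, hn3⟩ := (h5.and (hC''.and (eventually_ge_atTop 1))).exists
      have hn' : (0 : ℝ) < n := by exact_mod_cast hn3
      have hp := Real.rpow_pos_of_pos hn' ((2 * κ + D + M : ℕ) : ℝ)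
      rw [lt_div_iff₀ hp] at hn1
      linarith
    · filter_upwards [hC₁, hZb, eventually_ge_atTop 1] with n h5 h6 h7
      have hn' : (1 : ℝ) ≤ n := by exact_mod_cast h7
      obtain ⟨S, hS⟩ : ∃ S : ℂ, S = ∑ i ∈ T, β i * (((n : ℝ) ^ e i : ℝ) : ℂ) * z i ^ n := ⟨_, rfl⟩
      have hsum : ∑ i ∈ (T ×ˢ T).disjSum (range (R.natDegree + 1)),
          β' i * (((n : ℝ) ^ e' i : ℝ) : ℂ) * z' i ^ n = ((‖S‖ ^ 2 : ℝ) : ℂ) - ((R.eval (n : ℝ) : ℝ) : ℂ) := by
        rw [Finset.sum_disjSum, hS, sq_sum T β z e h7, sub_eq_add_neg, ← eval_sum]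
        rfl
      rw [hsum, hR n]
      have h8 : ((g n : ℝ) : ℂ) - (((‖S‖ ^ 2 : ℝ) : ℂ) - (((((n : ℝ) / 2) ^ κ * P.eval (n : ℝ)) ^ 2 : ℝ) : ℂ)) =
          ((Z n ^ 2 - ‖S‖ ^ 2 : ℝ) : ℂ) := by
        have : g n = Z n ^ 2 - (((n : ℝ) / 2) ^ κ * P.eval (n : ℝ)) ^ 2 := rfl
        rw [this]
        push_cast
        ring
      rw [h8, Complex.norm_real, Real.norm_eq_abs, Real.rpow_natCast]
      rw [← hS, Real.rpow_natCast] at h5
      have h9 : Z n ^ 2 = ‖f n‖ ^ 2 := by rw [hf, sq_abs]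
      have h10 : |‖f n‖ - ‖S‖| ≤ ‖f n - S‖ := abs_norm_sub_norm_le _ _
      have h11 : ‖S‖ ≤ ‖f n‖ + ‖f n - S‖ := by
        have h12 := norm_sub_le (f n) (f n - S)
        rwa [sub_sub_cancel] at h12
      have hq : (n : ℝ) ^ (κ + M) ≤ (n : ℝ) ^ (κ + D) := pow_le_pow_right₀ hn' (by omega)
      have hfb : ‖f n‖ ≤ C₂ * (n : ℝ) ^ (κ + D) := by rw [hf]; exact h6
      have h13 : ‖f n‖ + ‖S‖ ≤ (2 * C₂ + C₁) * (n : ℝ) ^ (κ + D) := by
        have h14 : C₁ * (n : ℝ) ^ (κ + M) ≤ C₁ * (n : ℝ) ^ (κ + D) := mul_le_mul_of_nonneg_left hq hC₁0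
        linarith
      rw [h9, sq_sub_sq, abs_mul, abs_of_nonneg (by positivity : 0 ≤ ‖f n‖ + ‖S‖)]
      calc (‖f n‖ + ‖S‖) * |‖f n‖ - ‖S‖| ≤ ((2 * C₂ + C₁) * (n : ℝ) ^ (κ + D)) * (C₁ * (n : ℝ) ^ (κ + M)) :=
            mul_le_mul h13 (h10.trans h5) (abs_nonneg _) (by positivity)
        _ = C₁ * (2 * C₂ + C₁) * (n : ℝ) ^ (2 * κ + D + M) := by
          have h3 : (n : ℝ) ^ (2 * κ + D + M) = (n : ℝ) ^ (κ + M) * (n : ℝ) ^ (κ + D) := by
            rw [← pow_add]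
            congr 1
            omega
          rw [h3]
          ring

end Pool.Agent.H268.BP562
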